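import Pool.Agent.H.MP_4f0cf1_nt.C

namespace Pool.Agent.Results.MP_fe1d70_nt.Q2

open NumberField Pool.Agent.H.MP_4f0cf1_nt

/-- The determinant `E_p`; row `j` and column `k` of `Fin n` stand for `j + 1` and `k + 1`. -/
noncomputable def E (p : ℕ) [Fact p.Prime] (x y w : ℂ) : ℂ :=
  (Matrix.of fun j k : Fin ((p - 1) / 2) =>
    x + (legendreSym p (((j : ℕ) + 1) + ((k : ℕ) + 1)) : ℂ) +
    (legendreSym p (((j : ℕ) + 1) - ((k : ℕ) + 1)) : ℂ) + (legendreSym p ((j : ℕ) + 1) : ℂ) * y +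
    (legendreSym p (((j : ℕ) + 1) * ((k : ℕ) + 1)) : ℂ) * w).det

theorem result (p : ℕ) [Fact p.Prime] (hp : 3 < p) (h : p % 4 = 3) (K : Type) [Field K]
    [NumberField K] (hK : Module.finrank ℚ K = 2) (s : K) (hs : s ^ 2 = -p) :
    ∃ q : ℤ, ∀ x y w : ℂ, (-1) ^ ((classNumber K + 1) / 2) * E p x y w =
      (p : ℂ) ^ ((p - 3) / 4) * (((p - 1) / 2 : ℕ) * y - 1 +
        (2 - (legendreSym p 2 : ℂ)) * classNumber K * (w + x) -
        (legendreSym p 2 : ℂ) * (16 * q / p) * w * x) := by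
  have h1 : p = 2 * ((p - 1) / 2) + 1 := by omega
  obtain ⟨q, hq⟩ := last h1 h
  obtain ⟨a1, a2, a3⟩ := det_h (R := ℂ) h1 h hp hK hs
  refine ⟨legendreSym p 2 * q, fun x y w => ?_⟩
  have h2 : (-1 : ℂ) ^ ((classNumber K - 1) / 2) * (-1) ^ ((classNumber K - 1) / 2) = 1 := by
    rw [← mul_pow]; simp
  have h3 := c_sq (R := ℂ) (nz h1 two_pos (by omega))
  rw [show E p x y w = _ from .trans (by simp [E, c_leg, e]) (hq x y w), a1, a3,
    show (classNumber K + 1) / 2 = (classNumber K - 1) / 2 + 1 by omega, Int.cast_mul, c_leg]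
  push_cast at h3 ⊢
  linear_combination -p ^ ((p - 3) / 4) * (1 - ((p - 1) / 2 : ℕ) * y - (2 - c ℂ (2 : ZMod p)) *
    classNumber K * (w + x) + 16 * q / p * w * x) * h2 + p ^ ((p - 3) / 4) * 16 * q / p * w * x * h3

end Pool.Agent.Results.MP_fe1d70_nt.Q2
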